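import Pool.Agent.helper62.DP8.Spec
import Pool.Agent.helper62.DP8.Trees

set_option autoImplicit false

namespace Pool.Agent.helper62.DP8

theorem MAI (hCHK : CHK_stmt) (hBIG : BIG_stmt) (hCYC : CYC_stmt) (hCYR : CYR_stmt) : MAI_stmt := by
  intro V _ G hG hC hP
  have : Nonempty V := hG.nonempty
  obtain ⟨g, u, hg3, hgir, hcy⟩ := hCYC V G hC
  by_cases h9 : 9 ≤ g
  · exact hBIG V G g u h9 hG hgir hC hcy
  · have h32 : g ≤ 32 := by omega
    have hr : Real G (root g) u := hCYR V G g u hg3 h32 hcy
    have key : ∀ tr : Tr, check g tr [root g] = true → Goal G := by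
      intro tr htr
      exact hCHK V G g hg3 hG hC hgir hP tr [root g] htr (root g) (by simp) u hr
    have hg8 : g = 3 ∨ g = 4 ∨ g = 5 ∨ g = 6 ∨ g = 7 ∨ g = 8 := by omega
    rcases hg8 with h | h | h | h | h | h
    · subst h; exact key _ tree3_ok
    · subst h; exact key _ tree4_ok
    · subst h; exact key _ tree5_ok
    · subst h; exact key _ tree6_ok
    · subst h; exact key _ tree7_ok
    · subst h; exact key _ tree8_ok

end Pool.Agent.helper62.DP8
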